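import Pool.Agent.Helper1.RK.StA

/-!
# Project RK, module PL: poles of the vector field
-/

set_option autoImplicit false

namespace Pool.Agent.Helper94.RK

open Polynomial
open Pool.Agent.Helper1.RK

/-- the common part of the two cases of (1): `c₁` is `c` or `c - C (ev p c)` -/
lemma pl_aux (h1 : StORD) (h2 : StREG) {L : Type} [Field L] (p a : L) (V t s c₁ : RatFunc L)
    (ht : t ≠ 0) (hW : (V - RatFunc.C a) * t = -s) (hts : ord p t = ord p c₁ - 1)
    (hs : s ≠ 0 → ord p c₁ ≤ ord p s) : Reg p V ∧ ev p V = a := by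
  obtain ⟨-, o2, -, o4, -⟩ := h1 L p
  obtain ⟨-, r2, -, r4, r5, -, r7, -⟩ := h2 L p
  have hW1 : V - RatFunc.C a = 0 ∨ 1 ≤ ord p (V - RatFunc.C a) := by
    by_cases hs0 : s = 0
    · left
      rw [hs0, neg_zero] at hW
      rcases mul_eq_zero.1 hW with h | h
      · exact h
      · exact absurd h ht
    · right
      have hW0 : V - RatFunc.C a ≠ 0 := by
        intro h
        rw [h, zero_mul] at hW
        exact hs0 (neg_eq_zero.1 hW.symm)
      have e1 := o2 _ _ hW0 ht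
      rw [hW, o4] at e1
      have e2 := hs hs0
      omega
  have hWr : Reg p (V - RatFunc.C a) := by
    rw [r2]
    rcases hW1 with h | h
    · exact Or.inl h
    · exact Or.inr (by omega)
  have hWe : ev p (V - RatFunc.C a) = 0 := (r4 _ hWr).2 hW1
  have h7 := r7 _ _ hWr (r5 a).1
  rw [sub_add_cancel, hWe, (r5 a).2, zero_add] at h7
  exact ⟨h7.1, h7.2.1⟩

theorem pPL (h1 : StORD) (h2 : StREG) (h3 : StDER) (h4 : StLCD) : StPL := by
  intro L _ _ p d V D Dt c hD hDt hDc hc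
  obtain ⟨d1, -, d3, d4⟩ := h3 L
  obtain ⟨Dc, hDc0⟩ := d1 d 0
  obtain ⟨Ds, hDs⟩ := d1 d (RatFunc.C (d p))
  obtain ⟨-, o2, -, o4, -⟩ := h1 L p
  obtain ⟨-, r2, r3, r4, r5, -, r7, -⟩ := h2 L p
  obtain ⟨l1, l2, l3⟩ := h4 L p Dt hDt
  have hDt0 : Dt c ≠ 0 := fun h => hc ((d4 Dt hDt c).1 h)
  have hc0 : c ≠ 0 := by
    rintro rfl
    exact hc ⟨0, by simp⟩
  have f1 : V * Dt c = -Dc c := by
    have h := d3 d V D Dc Dt hD hDc0 hDt c
    rw [hDc] at h
    linear_combination -h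
  have f2 : (V - RatFunc.C (d p)) * Dt c = -Ds c := by
    have h := d3 d _ Ds Dc Dt hDs hDc0 hDt c
    linear_combination f1 + h
  have hls := (l1 d _ Ds hDs (r5 _).1).2.2 (r5 _).2
  have part1 : (¬ Reg p c ∨ d (ev p c) = 0) → Reg p V ∧ ev p V = d p := by
    intro h
    by_cases hr : Reg p c
    · have hd0 : d (ev p c) = 0 := by
        rcases h with h | h
        · exact absurd hr h
        · exact h
      have hc1 : c - RatFunc.C (ev p c) ≠ 0 := fun h0 => hc ⟨_, sub_eq_zero.1 h0⟩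
      have e1 : Ds (c - RatFunc.C (ev p c)) = Ds c := by
        rw [map_sub, hDs.1, hd0, map_zero, sub_zero]
      refine pl_aux h1 h2 p (d p) V (Dt c) (Ds c) (c - RatFunc.C (ev p c)) hDt0 f2
        (l3 c hc hr).2 ?_
      intro hs
      have h5 := hls _ hc1 (by rw [e1]; exact hs)
      rw [e1] at h5
      exact h5
    · have hn := ((r3 c).1 hr).2
      exact pl_aux h1 h2 p (d p) V (Dt c) (Ds c) c hDt0 f2 (l2 c hc0 (by omega)).2
        (fun hs => hls c hc0 hs)
  refine ⟨part1, ?_⟩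
  intro hV
  have hr : Reg p c := by
    by_contra hr
    exact hV (part1 (Or.inl hr)).1
  have hd : d (ev p c) ≠ 0 := fun h0 => hV (part1 (Or.inr h0)).1
  refine ⟨hr, hd, ?_⟩
  obtain ⟨hV0, hVn⟩ := (r3 V).1 hV
  have hDc1 : Dc c ≠ 0 := by
    intro h0
    rw [h0, neg_zero] at f1
    rcases mul_eq_zero.1 f1 with h | h
    · exact hV0 h
    · exact hDt0 h
  have e1 := o2 V (Dt c) hV0 hDt0
  rw [f1, o4] at e1
  have hz : Reg p (0 : RatFunc L) := (r2 0).2 (Or.inl rfl)
  have l4 := (l1 d 0 Dc hDc0 hz).1 c hr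
  have e2 : 0 ≤ ord p (Dc c) := by
    rcases (r2 (Dc c)).1 l4.1 with h | h
    · exact absurd h hDc1
    · exact h
  have hDtr : Reg p (Dt c) := (r2 _).2 (Or.inr (by omega))
  have hDte : ev p (Dt c) = 0 := (r4 _ hDtr).2 (Or.inr (by omega))
  have e3 : ev p (Dc c) ≠ 0 := by
    rw [l4.2, hDte, mul_zero, add_zero]
    exact hd
  have e4 : ¬ 1 ≤ ord p (Dc c) := fun h => e3 ((r4 _ l4.1).2 (Or.inr h))
  omega

end Pool.Agent.Helper94.RK
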