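import Pool.Agent.Helper1.RK.StF

/-!
# Project RK, module NRT: the cubic `x ^ 3 + j x + j` has no root in `F(j)`
-/

set_option autoImplicit false

namespace Pool.Agent.Helper94.RK

open Pool.Agent.Helper1.RK
open Polynomial

theorem pNRT : StNRT := by
  intro F _ g hg
  have hint : IsIntegral F[X] g := by
    refine ⟨X ^ 3 + (C (X : F[X]) * X + C (X : F[X])), ?_, ?_⟩
    · apply monic_X_pow_add
      refine lt_of_le_of_lt (degree_linear_le (a := (X : F[X])) (b := (X : F[X]))) ?_
      norm_num
    · simp only [eval₂_add, eval₂_mul, eval₂_pow, eval₂_X, eval₂_C]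
      rw [RatFunc.algebraMap_X, ← add_assoc]
      exact hg
  obtain ⟨P, hP⟩ := IsIntegrallyClosed.algebraMap_eq_of_integral (K := RatFunc F) hint
  have h1 : P ^ 3 + X * P + X = 0 := by
    apply RatFunc.algebraMap_injective F
    rw [map_add, map_add, map_mul, map_pow, hP, RatFunc.algebraMap_X, map_zero]
    exact hg
  have h2 : P.eval 0 = 0 := by
    have := congrArg (eval (0 : F)) h1
    simp only [eval_add, eval_mul, eval_pow, eval_X, zero_mul, add_zero, eval_zero] at this
    exact pow_eq_zero_iff (by norm_num) |>.1 this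
  obtain ⟨Q, hQ⟩ := X_dvd_iff.2 (by rwa [coeff_zero_eq_eval_zero] : P.coeff 0 = 0)
  have h3 : X * (X ^ 2 * Q ^ 3 + X * Q + 1) = 0 := by
    rw [hQ] at h1
    linear_combination h1
  have h4 : X ^ 2 * Q ^ 3 + X * Q + 1 = 0 := by
    rcases mul_eq_zero.1 h3 with h | h
    · exact absurd h X_ne_zero
    · exact h
  have := congrArg (eval (0 : F)) h4
  simp at this

end Pool.Agent.Helper94.RK
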